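import Mathlib

/-!
Closure lemmas for `Computable`, tagged for `fun_prop`.
-/

namespace Pool.Agent.Lib.Helper43

attribute [fun_prop] Computable

namespace CFP

variable {α β γ δ σ : Type} [Primcodable α] [Primcodable β] [Primcodable γ] [Primcodable δ]
  [Primcodable σ]

@[fun_prop] theorem id : Computable (fun a : α => a) := Computable.id

@[fun_prop] theorem const (b : β) : Computable (fun _ : α => b) := Computable.const b

@[fun_prop] theorem comp {f : β → γ} {g : α → β} (hf : Computable f) (hg : Computable g) :
    Computable (fun a => f (g a)) := hf.comp hg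

@[fun_prop] theorem prodMk {f : α → β} {g : α → γ} (hf : Computable f) (hg : Computable g) :
    Computable (fun a => (f a, g a)) := hf.pair hg

@[fun_prop] theorem fst {f : α → β × γ} (hf : Computable f) : Computable (fun a => (f a).1) :=
  Computable.fst.comp hf

@[fun_prop] theorem snd {f : α → β × γ} (hf : Computable f) : Computable (fun a => (f a).2) :=
  Computable.snd.comp hf

@[fun_prop] theorem cond {c : α → Bool} {f g : α → β} (hc : Computable c) (hf : Computable f)
    (hg : Computable g) : Computable (fun a => bif c a then f a else g a) :=
  Computable.cond hc hf hg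

@[fun_prop] theorem ite {c : α → Prop} {inst : ∀ a, Decidable (c a)} {f g : α → β}
    (hc : Computable (fun a => @decide (c a) (inst a))) (hf : Computable f)
    (hg : Computable g) : Computable (fun a => @_root_.ite _ (c a) (inst a) (f a) (g a)) :=
  (Computable.cond hc hf hg).of_eq (fun a => by by_cases h : c a <;> simp [h])

@[fun_prop] theorem and {f g : α → Bool} (hf : Computable f) (hg : Computable g) :
    Computable (fun a => f a && g a) :=
  (Primrec.and.to_comp).comp hf hg

@[fun_prop] theorem or {f g : α → Bool} (hf : Computable f) (hg : Computable g) :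
    Computable (fun a => f a || g a) :=
  (Primrec.or.to_comp).comp hf hg

@[fun_prop] theorem not {f : α → Bool} (hf : Computable f) : Computable (fun a => !f a) :=
  (Primrec.not.to_comp).comp hf

@[fun_prop] theorem xor {f g : α → Bool} (hf : Computable f) (hg : Computable g) :
    Computable (fun a => Bool.xor (f a) (g a)) :=
  ((Primrec.dom_bool₂ Bool.xor).to_comp).comp hf hg

theorem decEq {f g : α → β} {inst : ∀ a, Decidable (f a = g a)} (hf : Computable f)
    (hg : Computable g) : Computable (fun a => @decide (f a = g a) (inst a)) := by
  classical
  have h : Computable₂ (fun x y : β => decide (x = y)) :=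
    (primrecRel_iff_primrec_decide.1 (Primrec.eq (α := β))).to_comp
  exact (h.comp hf hg).of_eq (fun a => by simp)

theorem decLt {f g : α → ℕ} {inst : ∀ a, Decidable (f a < g a)} (hf : Computable f)
    (hg : Computable g) : Computable (fun a => @decide (f a < g a) (inst a)) := by
  have h : Computable₂ (fun x y : ℕ => decide (x < y)) :=
    (primrecRel_iff_primrec_decide.1 Primrec.nat_lt).to_comp
  exact (h.comp hf hg).of_eq (fun a => by simp)

theorem decLe {f g : α → ℕ} {inst : ∀ a, Decidable (f a ≤ g a)} (hf : Computable f)
    (hg : Computable g) : Computable (fun a => @decide (f a ≤ g a) (inst a)) := by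
  have h : Computable₂ (fun x y : ℕ => decide (x ≤ y)) :=
    (primrecRel_iff_primrec_decide.1 Primrec.nat_le).to_comp
  exact (h.comp hf hg).of_eq (fun a => by simp)

theorem decAnd {p q : α → Prop} {i1 : ∀ a, Decidable (p a)} {i2 : ∀ a, Decidable (q a)}
    {inst : ∀ a, Decidable (p a ∧ q a)}
    (hp : Computable (fun a => @decide (p a) (i1 a)))
    (hq : Computable (fun a => @decide (q a) (i2 a))) :
    Computable (fun a => @decide (p a ∧ q a) (inst a)) :=
  (and hp hq).of_eq (fun a => by simp)

theorem decOr {p q : α → Prop} {i1 : ∀ a, Decidable (p a)} {i2 : ∀ a, Decidable (q a)}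
    {inst : ∀ a, Decidable (p a ∨ q a)}
    (hp : Computable (fun a => @decide (p a) (i1 a)))
    (hq : Computable (fun a => @decide (q a) (i2 a))) :
    Computable (fun a => @decide (p a ∨ q a) (inst a)) :=
  (or hp hq).of_eq (fun a => by simp)

theorem decNot {p : α → Prop} {i1 : ∀ a, Decidable (p a)} {inst : ∀ a, Decidable (¬ p a)}
    (hp : Computable (fun a => @decide (p a) (i1 a))) :
    Computable (fun a => @decide (¬ p a) (inst a)) :=
  (not hp).of_eq (fun a => by simp)

attribute [fun_prop] decEq decLt decLe

@[fun_prop] theorem beq [BEq β] [LawfulBEq β] {f g : α → β} (hf : Computable f)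
    (hg : Computable g) : Computable (fun a => f a == g a) := by
  classical
  exact (decEq (inst := fun _ => inferInstance) hf hg).of_eq (fun a => by
    by_cases h : f a = g a <;> simp [h])

@[fun_prop] theorem bne [BEq β] [LawfulBEq β] {f g : α → β} (hf : Computable f)
    (hg : Computable g) : Computable (fun a => f a != g a) :=
  (not (beq hf hg)).of_eq (fun _ => rfl)

@[fun_prop] theorem add {f g : α → ℕ} (hf : Computable f) (hg : Computable g) :
    Computable (fun a => f a + g a) := (Primrec.nat_add.to_comp).comp hf hg

@[fun_prop] theorem succ {f : α → ℕ} (hf : Computable f) :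
    Computable (fun a => Nat.succ (f a)) := Computable.succ.comp hf

@[fun_prop] theorem sub {f g : α → ℕ} (hf : Computable f) (hg : Computable g) :
    Computable (fun a => f a - g a) := (Primrec.nat_sub.to_comp).comp hf hg

@[fun_prop] theorem mul {f g : α → ℕ} (hf : Computable f) (hg : Computable g) :
    Computable (fun a => f a * g a) := (Primrec.nat_mul.to_comp).comp hf hg

@[fun_prop] theorem div {f g : α → ℕ} (hf : Computable f) (hg : Computable g) :
    Computable (fun a => f a / g a) := (Primrec.nat_div.to_comp).comp hf hg

@[fun_prop] theorem mod {f g : α → ℕ} (hf : Computable f) (hg : Computable g) :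
    Computable (fun a => f a % g a) := (Primrec.nat_mod.to_comp).comp hf hg

@[fun_prop] theorem max {f g : α → ℕ} (hf : Computable f) (hg : Computable g) :
    Computable (fun a => Max.max (f a) (g a)) := (Primrec.nat_max.to_comp).comp hf hg

@[fun_prop] theorem pow {f g : α → ℕ} (hf : Computable f) (hg : Computable g) :
    Computable (fun a => f a ^ g a) := by
  have : Primrec₂ (fun a b : ℕ => a ^ b) := Primrec₂.unpaired'.1 Nat.Primrec.pow
  exact this.to_comp.comp hf hg

@[fun_prop] theorem testBit {f g : α → ℕ} (hf : Computable f) (hg : Computable g) :
    Computable (fun a => Nat.testBit (f a) (g a)) := by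
  have : Computable (fun a => decide (f a / 2 ^ g a % 2 = 1)) := by fun_prop
  exact this.of_eq (fun a => by rw [Nat.testBit_eq_decide_div_mod_eq])

@[fun_prop] theorem natPair {f g : α → ℕ} (hf : Computable f) (hg : Computable g) :
    Computable (fun a => Nat.pair (f a) (g a)) := (Primrec₂.natPair.to_comp).comp hf hg

@[fun_prop] theorem unpair {f : α → ℕ} (hf : Computable f) :
    Computable (fun a => Nat.unpair (f a)) := Computable.unpair.comp hf

@[fun_prop] theorem bodd {f : α → ℕ} (hf : Computable f) :
    Computable (fun a => Nat.bodd (f a)) := Computable.nat_bodd.comp hf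

@[fun_prop] theorem encode {f : α → β} (hf : Computable f) :
    Computable (fun a => Encodable.encode (f a)) := Computable.encode.comp hf

@[fun_prop] theorem some {f : α → β} (hf : Computable f) :
    Computable (fun a => Option.some (f a)) := Computable.option_some.comp hf

@[fun_prop] theorem optGetD {f : α → Option β} {g : α → β} (hf : Computable f)
    (hg : Computable g) : Computable (fun a => (f a).getD (g a)) := Computable.option_getD hf hg

@[fun_prop] theorem isSome {f : α → Option β} (hf : Computable f) :
    Computable (fun a => (f a).isSome) := (Primrec.option_isSome.to_comp).comp hf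

@[fun_prop] theorem optMap {f : α → Option β} {g : α → β → γ} (hf : Computable f)
    (hg : Computable (fun p : α × β => g p.1 p.2)) : Computable (fun a => (f a).map (g a)) :=
  Computable.option_map hf hg

@[fun_prop] theorem optBind {f : α → Option β} {g : α → β → Option γ} (hf : Computable f)
    (hg : Computable (fun p : α × β => g p.1 p.2)) : Computable (fun a => (f a).bind (g a)) :=
  Computable.option_bind hf hg

@[fun_prop] theorem evaln {k n : α → ℕ} {c : α → Nat.Partrec.Code} (hk : Computable k)
    (hc : Computable c) (hn : Computable n) :
    Computable (fun a => Nat.Partrec.Code.evaln (k a) (c a) (n a)) :=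
  Nat.Partrec.Code.primrec_evaln.to_comp.comp ((hk.pair hc).pair hn)

@[fun_prop] theorem ofNatCode {f : α → ℕ} (hf : Computable f) :
    Computable (fun a => Denumerable.ofNat Nat.Partrec.Code (f a)) :=
  (Computable.ofNat _).comp hf

@[fun_prop] theorem ofNatList {f : α → ℕ} (hf : Computable f) :
    Computable (fun a => Denumerable.ofNat (List ℕ) (f a)) :=
  (Computable.ofNat _).comp hf

@[fun_prop] theorem cons {f : α → β} {l : α → List β} (hf : Computable f) (hl : Computable l) :
    Computable (fun a => f a :: l a) := Computable.list_cons.comp hf hl

@[fun_prop] theorem append {l m : α → List β} (hl : Computable l) (hm : Computable m) :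
    Computable (fun a => l a ++ m a) := Computable.list_append.comp hl hm

@[fun_prop] theorem length {l : α → List β} (hl : Computable l) :
    Computable (fun a => (l a).length) := Computable.list_length.comp hl

@[fun_prop] theorem reverse {l : α → List β} (hl : Computable l) :
    Computable (fun a => (l a).reverse) := Computable.list_reverse.comp hl

@[fun_prop] theorem range {f : α → ℕ} (hf : Computable f) :
    Computable (fun a => List.range (f a)) := Primrec.list_range.to_comp.comp hf

@[fun_prop] theorem take {f : α → ℕ} {l : α → List β} (hf : Computable f) (hl : Computable l) :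
    Computable (fun a => (l a).take (f a)) := Primrec.list_take.to_comp.comp hf hl

@[fun_prop] theorem drop {f : α → ℕ} {l : α → List β} (hf : Computable f) (hl : Computable l) :
    Computable (fun a => (l a).drop (f a)) := Primrec.list_drop.to_comp.comp hf hl

@[fun_prop] theorem getElem? {f : α → ℕ} {l : α → List β} (hl : Computable l) (hf : Computable f) :
    Computable (fun a => (l a)[f a]?) := Computable.list_getElem?.comp hl hf

@[fun_prop] theorem listGetD {f : α → ℕ} {l : α → List β} {d : α → β} (hl : Computable l)
    (hf : Computable f) (hd : Computable d) : Computable (fun a => (l a).getD (f a) (d a)) :=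
  (optGetD (getElem? hl hf) hd).of_eq (fun a => by simp [List.getD_eq_getElem?_getD])

@[fun_prop] theorem head? {l : α → List β} (hl : Computable l) :
    Computable (fun a => (l a).head?) := Primrec.list_head?.to_comp.comp hl

@[fun_prop] theorem tail {l : α → List β} (hl : Computable l) :
    Computable (fun a => (l a).tail) := Primrec.list_tail.to_comp.comp hl

@[fun_prop] theorem flatten {l : α → List (List β)} (hl : Computable l) :
    Computable (fun a => (l a).flatten) := Primrec.list_flatten.to_comp.comp hl

theorem natRec {f : α → ℕ} {g : α → σ} {h : α → ℕ → σ → σ} (hf : Computable f)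
    (hg : Computable g) (hh : Computable (fun p : α × ℕ × σ => h p.1 p.2.1 p.2.2)) :
    Computable (fun a => @Nat.rec (fun _ => σ) (g a) (fun n ih => h a n ih) (f a)) :=
  Computable.nat_rec hf hg (h := fun a p => h a p.1 p.2) hh

omit [Primcodable β] [Primcodable σ] in
theorem foldl_aux (l : List β) (s : σ) (h : σ → β → σ) (n : ℕ) :
    @Nat.rec (fun _ => σ) s (fun i ih => ((l[i]?).map (h ih)).getD ih) n
      = (l.take n).foldl h s := by
  induction n with
  | zero => simp
  | succ n ih =>
    simp only [ih]
    by_cases hn : n < l.length
    · rw [List.take_add_one, List.getElem?_eq_getElem hn, List.foldl_append]; rfl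
    · have h1 : l[n]? = none := List.getElem?_eq_none (by omega)
      rw [List.take_add_one, h1]; simp

@[fun_prop] theorem foldl {l : α → List β} {s : α → σ} {h : α → σ → β → σ}
    (hh : Computable (fun p : α × σ × β => h p.1 p.2.1 p.2.2)) (hs : Computable s)
    (hl : Computable l) : Computable (fun a => (l a).foldl (h a) (s a)) := by
  have h1 : Computable (fun a => @Nat.rec (fun _ => σ) (s a)
      (fun i ih => (((l a)[i]?).map (h a ih)).getD ih) (l a).length) := by
    refine natRec (length hl) hs ?_
    refine optGetD (optMap (by fun_prop) ?_) (by fun_prop)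
    exact hh.comp (g := fun q : (α × ℕ × σ) × β => (q.1.1, q.1.2.2, q.2)) (by fun_prop)
  exact h1.of_eq (fun a => by rw [foldl_aux]; simp)

@[fun_prop] theorem flatMap {l : α → List β} {g : α → β → List γ}
    (hg : Computable (fun p : α × β => g p.1 p.2)) (hl : Computable l) :
    Computable (fun a => (l a).flatMap (g a)) := by
  have h1 : Computable (fun a => (l a).foldl (fun acc x => acc ++ g a x) []) := by
    refine foldl ?_ (const _) hl
    exact append (by fun_prop)
      (hg.comp (g := fun q : α × List γ × β => (q.1, q.2.2)) (by fun_prop))
  refine h1.of_eq (fun a => ?_)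
  have : ∀ (m : List β) (acc : List γ),
      m.foldl (fun acc x => acc ++ g a x) acc = acc ++ m.flatMap (g a) := by
    intro m
    induction m with
    | nil => simp
    | cons x m ih => intro acc; simp [ih]
  simpa using this (l a) []

@[fun_prop] theorem map {l : α → List β} {g : α → β → γ}
    (hg : Computable (fun p : α × β => g p.1 p.2)) (hl : Computable l) :
    Computable (fun a => (l a).map (g a)) :=
  (flatMap (g := fun a x => [g a x]) (cons hg (const _)) hl).of_eq (fun a => by
    induction l a with
    | nil => rfl
    | cons x m ih => simp [List.flatMap_cons, ih])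

@[fun_prop] theorem filter {l : α → List β} {g : α → β → Bool}
    (hg : Computable (fun p : α × β => g p.1 p.2)) (hl : Computable l) :
    Computable (fun a => (l a).filter (g a)) :=
  (flatMap (g := fun a x => bif g a x then [x] else []) (cond hg (by fun_prop) (const _)) hl).of_eq
    (fun a => by
      induction l a with
      | nil => rfl
      | cons x m ih => cases h : g a x <;> simp [List.flatMap_cons, ih, h])

@[fun_prop] theorem filterMap {l : α → List β} {g : α → β → Option γ}
    (hg : Computable (fun p : α × β => g p.1 p.2)) (hl : Computable l) :
    Computable (fun a => (l a).filterMap (g a)) :=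
  (flatMap (g := fun a x => (g a x).toList) (Primrec.optionToList.to_comp.comp hg) hl).of_eq
    (fun a => by
      induction l a with
      | nil => rfl
      | cons x m ih => cases h : g a x <;> simp [List.flatMap_cons, ih, h])

@[fun_prop] theorem find? {l : α → List β} {g : α → β → Bool}
    (hg : Computable (fun p : α × β => g p.1 p.2)) (hl : Computable l) :
    Computable (fun a => (l a).find? (g a)) :=
  (head? (filter hg hl)).of_eq (fun a => by simp [List.head?_filter])

@[fun_prop] theorem any {l : α → List β} {g : α → β → Bool}
    (hg : Computable (fun p : α × β => g p.1 p.2)) (hl : Computable l) :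
    Computable (fun a => (l a).any (g a)) :=
  (isSome (find? hg hl)).of_eq (fun a => by
    rw [Bool.eq_iff_iff]; simp)

@[fun_prop] theorem all {l : α → List β} {g : α → β → Bool}
    (hg : Computable (fun p : α × β => g p.1 p.2)) (hl : Computable l) :
    Computable (fun a => (l a).all (g a)) :=
  (not (any (g := fun a x => !g a x) (not hg) hl)).of_eq (fun a => by
    rw [Bool.eq_iff_iff]; simp)

@[fun_prop] theorem contains [BEq β] [LawfulBEq β] {l : α → List β} {f : α → β}
    (hl : Computable l) (hf : Computable f) : Computable (fun a => (l a).contains (f a)) :=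
  (any (g := fun a x => f a == x) (by fun_prop) hl).of_eq (fun a => by
    rw [Bool.eq_iff_iff]; simp)

theorem decNodup [DecidableEq β] {l : α → List β} {inst : ∀ a, Decidable (l a).Nodup}
    (hl : Computable l) : Computable (fun a => @decide (l a).Nodup (inst a)) := by
  have h : Computable (fun a => (List.range (l a).length).all (fun i =>
      (List.range (l a).length).all (fun j => (i == j) || ((l a)[i]? != (l a)[j]?)))) := by
    fun_prop
  refine h.of_eq (fun a => ?_)
  rw [Bool.eq_iff_iff]
  simp only [List.all_eq_true, List.mem_range, Bool.or_eq_true, beq_iff_eq, bne_iff_ne,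
    decide_eq_true_eq]
  rw [List.nodup_iff_injective_getElem]
  constructor
  · intro h i j hij
    rcases h i.1 i.2 j.1 j.2 with h | h
    · exact Fin.ext h
    · exact absurd (by simp only [List.getElem?_eq_getElem i.2, List.getElem?_eq_getElem j.2]
                       exact congrArg _ hij) h
  · intro h i hi j hj
    by_cases hij : i = j
    · exact Or.inl hij
    · refine Or.inr (fun h2 => hij ?_)
      rw [List.getElem?_eq_getElem hi, List.getElem?_eq_getElem hj] at h2
      have := @h ⟨i, hi⟩ ⟨j, hj⟩ (Option.some.inj h2)
      exact congrArg Fin.val this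

/-- course-of-values recursion -/
theorem exists_strongRec (F : ℕ → List σ → σ)
    (hF : Computable (fun p : ℕ × List σ => F p.1 p.2)) :
    ∃ u : ℕ → σ, Computable u ∧ ∀ n, u n = F n ((List.range n).map u) := by
  let tb : ℕ → List σ := fun n => @Nat.rec (fun _ => List σ) [] (fun m ih => ih ++ [F m ih]) n
  have htb : Computable tb := by
    refine natRec id (const _) ?_
    refine append (by fun_prop) (cons ?_ (const _))
    exact hF.comp (g := fun p : ℕ × ℕ × List σ => (p.2.1, p.2.2)) (by fun_prop)
  have h1 : ∀ n, tb n = (List.range n).map (fun m => F m (tb m)) := by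
    intro n
    induction n with
    | zero => rfl
    | succ n ih =>
      rw [List.range_succ, List.map_append, ← ih]; rfl
  refine ⟨fun n => F n (tb n), hF.comp (g := fun n => (n, tb n)) (Computable.id.pair htb),
    fun n => ?_⟩
  beta_reduce
  rw [← h1]

/-- unbounded search for a witness that is known to exist -/
theorem find {p : α → ℕ → Bool} (hp : Computable (fun q : α × ℕ => p q.1 q.2))
    (hex : ∀ a, ∃ n, p a n = true) : Computable (fun a => Nat.find (hex a)) := by
  have h1 : Partrec (fun a => Nat.rfind (fun n => (Part.some (p a n) : Part Bool))) :=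
    Partrec.rfind (p := fun a n => (Part.some (p a n) : Part Bool)) hp.partrec
  refine (h1.of_eq (fun a => ?_) : Partrec (fun a => (Part.some (Nat.find (hex a)) : Part ℕ)))
  rw [Part.eq_some_iff, Nat.mem_rfind]
  refine ⟨by simpa using Nat.find_spec (hex a), fun {m} hm => ?_⟩
  simpa using Nat.find_min (hex a) hm

end CFP

end Pool.Agent.Lib.Helper43
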